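import Pool.Agent.Helper83.CB.Defs4

set_option autoImplicit false

/-! # The characteristic forms of invariant polynomials (assembly) -/

open Filter Topology MeasureTheory

namespace Pool.Agent.Helper83.CB

namespace CW1

section
variable {ι : Type} [Fintype ι]

theorem measurableSet_cube : MeasurableSet (cube ι) :=
  MeasurableSet.univ_pi fun _ => measurableSet_Ico

theorem cube_fin : volume (cube ι) ≠ ⊤ := by
  unfold cube
  rw [volume_pi_pi]
  exact ENNReal.prod_ne_top fun _ _ => by simp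

omit [Fintype ι] in
theorem mem_cube {x : ι → ℝ} : x ∈ cube ι ↔ ∀ i, 0 ≤ x i ∧ x i < 1 := by
  unfold cube
  simp [Set.mem_pi]

omit [Fintype ι] in
theorem fr_mem (x : ι → ℝ) : fr x ∈ cube ι :=
  mem_cube.2 fun _ => ⟨Int.fract_nonneg _, Int.fract_lt_one _⟩

omit [Fintype ι] in
theorem fr_eq {x : ι → ℝ} (hx : x ∈ cube ι) : fr x = x := by
  funext i
  exact Int.fract_eq_self.2 (mem_cube.1 hx i)

theorem norm_lt_of_mem {x : ι → ℝ} (hx : x ∈ cube ι) : x ∈ Metric.ball (0 : ι → ℝ) 3 := by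
  rw [mem_ball_zero_iff, pi_norm_lt_iff (by norm_num)]
  intro i
  have := mem_cube.1 hx i
  rw [Real.norm_eq_abs, abs_lt]
  constructor <;> linarith

/-- properties of almost all points of the cube hold at almost all fractional parts -/
theorem ae_fr {Q : (ι → ℝ) → Prop} (h : ∀ᵐ x : ι → ℝ, x ∈ cube ι → Q x) :
    ∀ᵐ x : ι → ℝ, Q (fr x) := by
  have h1 : ∀ m : ι → ℤ, ∀ᵐ x : ι → ℝ,
      (x + fun i => (m i : ℝ)) ∈ cube ι → Q (x + fun i => (m i : ℝ)) := fun m =>
    (measurePreserving_add_right volume (fun i => (m i : ℝ))).quasiMeasurePreserving.ae h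
  have h2 := ae_all_iff.2 h1
  filter_upwards [h2] with x hx
  have h3 := hx fun i => -⌊x i⌋
  have h4 : (x + fun i => ((-⌊x i⌋ : ℤ) : ℝ)) = fr x := by
    funext i
    simp only [Pi.add_apply, fr, Int.fract]
    push_cast
    ring
  rw [h4] at h3
  exact h3 (fr_mem x)

theorem integrable {W : Type*} [NormedAddCommGroup W] {f : (ι → ℝ) → W}
    (hf : AEStronglyMeasurable f volume) (hb : ∃ C : ℝ, ∀ x, ‖f x‖ ≤ C) :
    IntegrableOn f (cube ι) volume := by
  obtain ⟨C, hC⟩ := hb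
  exact Measure.integrableOn_of_bounded cube_fin hf (M := C) (ae_of_all _ hC)

end

section
variable {ι : Type} [Fintype ι] [DecidableEq ι]

theorem pf_mem_ev (hev : ST_EV) (heven : ST_EVEN) (Λ : Ext ι) {n q : ℕ}
    (c : Fin q → (M n →ₗ[ℝ] ℝ)) (P : MvPolynomial (Fin q) ℝ) (F : ι → ι → M n) :
    PF Λ c P F ∈ Λ.ev := by
  obtain ⟨Φ, h1, h2, h3⟩ := hev q (Λ.X →L[ℝ] Λ.X) (fun a => Λ.two fun μ ν => c a (F μ ν))
    (fun i j => (heven ι Λ).2.1 _ ((heven ι Λ).2.2 _) _ ((heven ι Λ).2.2 _))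
  refine Algebra.adjoin_le ?_ (h3 P)
  rintro _ ⟨a, rfl⟩
  exact (heven ι Λ).2.2 _

theorem pf_inv (heqp : ST_EQP) (Λ : Ext ι) {n q : ℕ} {S : Set (M n)} {k : Submodule ℝ (M n)}
    {c : Fin q → (M n →ₗ[ℝ] ℝ)} {P : MvPolynomial (Fin q) ℝ} (hP : InvS S k c P)
    {F : ι → ι → M n} (hF : ∀ μ ν, F μ ν ∈ k) {g : M n} (hg : g ∈ S) :
    PF Λ c P (fun μ ν => star g * F μ ν * g) = PF Λ c P F := by
  let c' : Fin q → (M n →ₗ[ℝ] ℝ) := fun a =>
    { toFun := fun Y => c a (star g * Y * g)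
      map_add' := fun Y Z => by rw [mul_add, add_mul, map_add]
      map_smul' := fun r Y => by
        rw [mul_smul_comm, smul_mul_assoc, map_smul]
        rfl }
  have h1 : PF Λ c P (fun μ ν => star g * F μ ν * g) = PF Λ c' P F := rfl
  rw [h1]
  exact heqp ι Λ n q q c' c P P k (fun Y hY => hP g hg Y hY) F hF

end

theorem invL (hconn : ST_CONN) {n q : ℕ} {N0 : E n → ℝ} (hN0 : IsNorm N0) (hU : Unitary N0)
    {k : Submodule ℝ (M n)} (hk : LieOf N0 k) {S : Set (M n)} (hS : OpenSub N0 S)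
    {c : Fin q → (M n →ₗ[ℝ] ℝ)} {P : MvPolynomial (Fin q) ℝ} (hP : InvS S k c P) :
    InvL k c P := by
  intro X hX Y hY
  have h1 : NormedSpace.exp (-X) ∈ S := by
    have hcont : Continuous fun t : ℝ => NormedSpace.exp (t • (-X)) := by
      let _ : NormedAlgebra ℚ (M n) := NormedAlgebra.restrictScalars ℚ ℂ (M n)
      exact NormedSpace.exp_continuous.comp (by fun_prop)
    have h2 := hconn n N0 hN0 hU S hS ℝ Set.univ (fun t => NormedSpace.exp (t • (-X)))
      isPreconnected_univ hcont.continuousOn (fun t _ => (hk.mem (-X)).1 (k.neg_mem hX) t)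
      ⟨0, trivial, by
        have h3 : NormedSpace.exp ((0 : ℝ) • (-X)) = 1 := by
          have h4 : (0 : ℝ) • (-X) = 0 := zero_smul ℝ (-X : M n)
          rw [h4, NormedSpace.exp_zero]
        rw [h3]
        exact hS.one⟩ 1 trivial
    have h4 : (1 : ℝ) • (-X) = -X := one_smul ℝ (-X : M n)
    rw [h4] at h2
    exact h2
  have h2 : star (NormedSpace.exp (-X)) = NormedSpace.exp X := by
    rw [NormedSpace.star_exp, star_neg, hk.skew X hX, neg_neg]
  have h3 := hP _ h1 Y hY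
  rw [h2] at h3
  exact h3

section
variable {ι : Type} [Fintype ι] [DecidableEq ι]

/-- a linear relation which holds almost everywhere holds for the mean -/
theorem lin_zero {Λ : Ext ι} {ω : (ι → ℝ) → (Λ.X →L[ℝ] Λ.X)} (hi : IntegrableOn ω (cube ι) volume)
    (T : (Λ.X →L[ℝ] Λ.X) →L[ℝ] (Λ.X →L[ℝ] Λ.X)) (h : ∀ᵐ x : ι → ℝ, x ∈ cube ι → T (ω x) = 0) :
    T (∫ x in cube ι, ω x) = 0 := by
  rw [← T.integral_comp_comm hi]
  rw [setIntegral_congr_ae (g := fun _ => 0) measurableSet_cube (by filter_upwards [h] with x hx h1; exact hx h1)]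
  simp

theorem mean_ev {Λ : Ext ι} {ω : (ι → ℝ) → (Λ.X →L[ℝ] Λ.X)} (hi : IntegrableOn ω (cube ι) volume)
    (h : ∀ x, ω x ∈ Λ.ev) : ∫ x in cube ι, ω x ∈ Λ.ev := by
  obtain ⟨C, hC⟩ := Submodule.exists_isCompl (Subalgebra.toSubmodule Λ.ev)
  have hC' := hC.symm
  let p : (Λ.X →L[ℝ] Λ.X) →ₗ[ℝ] (Λ.X →L[ℝ] Λ.X) := C.subtype.comp (Submodule.projectionOnto C _ hC')
  have hp : ∀ y, p y = 0 ↔ y ∈ Subalgebra.toSubmodule Λ.ev := by
    intro y
    have : p y = ((Submodule.projectionOnto C _ hC' y : C) : Λ.X →L[ℝ] Λ.X) := rfl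
    rw [this, ZeroMemClass.coe_eq_zero, Submodule.projectionOnto_apply_eq_zero_iff]
  have h1 := lin_zero hi (LinearMap.toContinuousLinearMap p) (ae_of_all _ fun x _ => (hp _).2 (h x))
  exact (hp _).1 h1

theorem mean_comm {Λ : Ext ι} {ω : (ι → ℝ) → (Λ.X →L[ℝ] Λ.X)} (hi : IntegrableOn ω (cube ι) volume)
    (A : Λ.X →L[ℝ] Λ.X) (h : ∀ᵐ x : ι → ℝ, x ∈ cube ι → A * ω x = ω x * A) :
    A * (∫ x in cube ι, ω x) = (∫ x in cube ι, ω x) * A := by
  let T : (Λ.X →L[ℝ] Λ.X) →ₗ[ℝ] (Λ.X →L[ℝ] Λ.X) :=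
    LinearMap.mulLeft ℝ A - LinearMap.mulRight ℝ A
  have h1 := lin_zero hi (LinearMap.toContinuousLinearMap T) (by
    filter_upwards [h] with x hx h2
    show A * ω x - ω x * A = 0
    rw [hx h2, sub_self])
  exact sub_eq_zero.1 h1

theorem mean_num {Λ : Ext ι} {ω : (ι → ℝ) → (Λ.X →L[ℝ] Λ.X)} (hi : IntegrableOn ω (cube ι) volume)
    (A : Λ.X →L[ℝ] Λ.X) (r : ℝ) (h : ∀ x, A * ω x - ω x * A = r • ω x) :
    A * (∫ x in cube ι, ω x) - (∫ x in cube ι, ω x) * A = r • ∫ x in cube ι, ω x := by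
  let T : (Λ.X →L[ℝ] Λ.X) →ₗ[ℝ] (Λ.X →L[ℝ] Λ.X) :=
    LinearMap.mulLeft ℝ A - LinearMap.mulRight ℝ A - r • LinearMap.id
  have h1 := lin_zero hi (LinearMap.toContinuousLinearMap T) (ae_of_all _ fun x _ => by
    show A * ω x - ω x * A - r • ω x = 0
    rw [h x, sub_self])
  exact sub_eq_zero.1 h1

/-- change of variables -/
theorem mean_perm {Λ : Ext ι} {ω : (ι → ℝ) → (Λ.X →L[ℝ] Λ.X)} (τ : Equiv.Perm ι) :
    ∫ x in cube ι, ω (x ∘ τ) = ∫ x in cube ι, ω x := by
  have h1 := volume_measurePreserving_piCongrLeft (fun _ : ι => ℝ) (τ.symm)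
  have h2 : ∀ x : ι → ℝ, MeasurableEquiv.piCongrLeft (fun _ : ι => ℝ) τ.symm x = x ∘ τ := by
    intro x
    funext i
    have := Equiv.piCongrLeft_apply (P := fun _ : ι => ℝ) τ.symm x i
    rw [MeasurableEquiv.coe_piCongrLeft]
    simpa using this
  have h3 := h1.setIntegral_preimage_emb (MeasurableEquiv.measurableEmbedding _) ω (cube ι)
  have h4 : (MeasurableEquiv.piCongrLeft (fun _ : ι => ℝ) τ.symm) ⁻¹' (cube ι) = cube ι := by
    ext x
    rw [Set.mem_preimage, h2, mem_cube, mem_cube]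
    constructor
    · intro h i
      have := h (τ.symm i)
      simpa using this
    · intro h i
      exact h (τ i)
  rw [h4] at h3
  rw [← h3]
  simp only [h2]

theorem mean_U {Λ : Ext ι} {ω : (ι → ℝ) → (Λ.X →L[ℝ] Λ.X)} (hi : IntegrableOn ω (cube ι) volume)
    (τ : Equiv.Perm ι) (A : Λ.X →L[ℝ] Λ.X)
    (h : ∀ᵐ x : ι → ℝ, x ∈ cube ι → ω x * A = A * ω (x ∘ τ)) :
    (∫ x in cube ι, ω x) * A = A * ∫ x in cube ι, ω x := by
  have h1 : (∫ x in cube ι, ω x) * A = ∫ x in cube ι, ω x * A := by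
    have := (LinearMap.toContinuousLinearMap (LinearMap.mulRight ℝ A)).integral_comp_comm hi
    exact this.symm
  have h2 : A * (∫ x in cube ι, ω x) = ∫ x in cube ι, A * ω x := by
    have := (LinearMap.toContinuousLinearMap (LinearMap.mulLeft ℝ A)).integral_comp_comm hi
    exact this.symm
  rw [h1, h2, ← mean_perm (ω := fun x => A * ω x) τ]
  exact setIntegral_congr_ae measurableSet_cube h

end

end CW1

open CW1 in
theorem st_CW1 (hwc : ST_WC) (heqp : ST_EQP) (hdeg : ST_DEG) (hglue : ST_GLUE) (hfsh : ST_FSH)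
    (hshift : ST_SHIFT) (hfreeze : ST_FREEZE) (hfpe : ST_FPE) (hstrip : ST_STRIP)
    (hshape : ST_SHAPE) (hev : ST_EV) (heven : ST_EVEN) (hconn : ST_CONN) : ST_CW1 := by
  intro n N0 N hset hU k hk pr hpr hq S hS π G hT L K hfr Λ q c P hP
  have hstar : ∀ x, star (π x) = π x := fun x => (hT.proj x).2.1
  have hInv := invL hconn hset.norm0 hU hk hS hP
  obtain ⟨-, hFk, hmeas, hbdd, hclosed⟩ := hwc (Ix n) Λ n q c P k hk.brk hInv K L (fun _ => 0) pr 0
    hpr (fun X => k.zero_mem) hfr.lipK hfr.lipL ⟨0, LipschitzWith.const _⟩ hfr.bddK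
    ⟨0, fun x => by simp⟩
  have hev' : ∀ x, PF Λ c P (Fcon K L (fun _ => 0) pr 0 x) ∈ Λ.ev := fun x =>
    pf_mem_ev hev heven Λ c P _
  have hshiftμ := (hshift n N0 N hset hU S hS π G hT L K hfr).1
  have hshiftσ := (hshift n N0 N hset hU S hS π G hT L K hfr).2
  -- the form is good
  have hgood : Good Λ (fun x => PF Λ c P (Fcon K L (fun _ => 0) pr 0 (fr x))) := by
    refine hglue (Ix n) Λ (fun x => PF Λ c P (Fcon K L (fun _ => 0) pr 0 x)) hmeas hbdd hev'
      hclosed ?_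
    intro μ
    filter_upwards [hfsh n N0 N hset hU k hk pr 0 hq (Ix n) π (fun _ => 0) hstar hT.per
      (fun _ _ => rfl) L K hfr μ] with x hx h1 _
    obtain ⟨-, h2⟩ := hx h1
    have h3 : Fcon K L (fun _ => 0) pr 0 (x + Pi.single μ 1) =
        fun ν ν' => star ((K x).comp (L (x + Pi.single μ 1))) *
          Fcon K L (fun _ => 0) pr 0 x ν ν' * (K x).comp (L (x + Pi.single μ 1)) := by
      funext ν ν'
      exact h2 ν ν'
    rw [h3]
    exact pf_inv heqp Λ hP (hFk x) (hshiftμ μ x h1)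
  refine ⟨hgood, ?_⟩
  intro d hd
  -- the mean
  have hi : IntegrableOn (fun x => PF Λ c P (Fcon K L (fun _ => 0) pr 0 x)) (cube (Ix n))
      volume := CW1.integrable hmeas hbdd
  have hW : ∫ x in cube (Ix n), PF Λ c P (Fcon K L (fun _ => 0) pr 0 (fr x)) =
      ∫ x in cube (Ix n), PF Λ c P (Fcon K L (fun _ => 0) pr 0 x) :=
    setIntegral_congr_fun measurableSet_cube fun x hx => by
      beta_reduce
      rw [fr_eq hx]
  -- vanishing of the curvature
  have hfz : ∀ (μ : Ix n) (O : Set (Ix n → ℝ)), IsOpen O → O ⊆ Metric.ball 0 3 →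
      (∀ x ∈ O, ∀ s, π (Function.update x μ s) = π x) →
      ∀ᵐ x, x ∈ O → Λ.c μ * PF Λ c P (Fcon K L (fun _ => 0) pr 0 x) =
        PF Λ c P (Fcon K L (fun _ => 0) pr 0 x) * Λ.c μ := by
    intro μ O hO1 hO2 hO3
    filter_upwards [hfreeze n N0 N hset hU k hk pr 0 hq (Ix n) π (fun _ => 0) hstar L K hfr O μ
      hO1 hO2 hO3 (fun _ _ => rfl)] with x hx h1
    exact (hdeg (Ix n) Λ n q c P _).2.2 μ (hx h1)
  rw [hW]
  refine (hshape n Λ).1 d _ ?_ ?_ ?_ ?_ ?_
  · exact mean_ev hi hev'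
  · refine mean_comm hi _ ?_
    filter_upwards [hfz none (Metric.ball 0 3) Metric.isOpen_ball le_rfl
      (fun x _ s => hT.tin x s)] with x hx h1
    exact hx (norm_lt_of_mem h1)
  · intro i b
    have hne : (some (i, b) : Ix n) ≠ some (i, !b) := by
      intro h
      have := (Prod.ext_iff.1 (Option.some.inj h)).2
      cases b <;> simp at this
    have h1 := hstrip (Ix n) Λ _ hgood (some (i, b)) (some (i, !b)) hne ?_
    · rw [hW] at h1
      exact h1
    · have hO : IsOpen {x : Ix n → ℝ | x ∈ Metric.ball (0 : Ix n → ℝ) 3 ∧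
          x (some (i, !b)) ∈ Set.Ioo (1 / 3 : ℝ) (2 / 3)} :=
        Metric.isOpen_ball.inter (isOpen_Ioo.preimage (continuous_apply _))
      have h2 := hfz (some (i, b)) _ hO (fun x hx => hx.1) (fun x hx s => hT.strip x i b s (by
        unfold inStrip
        rw [Int.fract_eq_self.2 ⟨by linarith [hx.2.1], by linarith [hx.2.2]⟩]
        exact hx.2))
      have h3 : ∀ᵐ x : Ix n → ℝ, x ∈ cube (Ix n) →
          (inStrip (x (some (i, !b))) → Λ.c (some (i, b)) * PF Λ c P (Fcon K L (fun _ => 0) pr 0 x) =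
            PF Λ c P (Fcon K L (fun _ => 0) pr 0 x) * Λ.c (some (i, b))) := by
        filter_upwards [h2] with x hx h4 h5
        refine hx ⟨norm_lt_of_mem h4, ?_⟩
        unfold inStrip at h5
        rwa [Int.fract_eq_self.2 (mem_cube.1 h4 _)] at h5
      filter_upwards [ae_fr h3] with x hx h4
      refine hx ?_
      unfold inStrip fr at *
      rwa [Int.fract_fract]
  · intro σ
    refine mean_U hi (sI σ) _ ?_
    filter_upwards [hfpe n N0 N hset hU k hk pr 0 hq (Ix n) π (sI σ) hstar (hT.sym σ) L K hfr]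
      with x hx h1
    have h2 : ∀ ν, -2 ≤ x ν ∧ x ν ≤ 2 := fun ν => by
      have := mem_cube.1 h1 ν
      constructor <;> linarith
    have h3 : Fcon K L (fun _ => 0) pr 0 (x ∘ sI σ) =
        fun ν ν' => star ((K x).comp (L (x ∘ sI σ))) *
          Fcon K L (fun _ => 0) pr 0 x (sI σ ν) (sI σ ν') * (K x).comp (L (x ∘ sI σ)) := by
      funext ν ν'
      exact hx h2 ν ν'
    rw [(hdeg (Ix n) Λ n q c P _).2.1 (sI σ), h3]
    congr 1
    exact (pf_inv heqp Λ hP (F := fun ν ν' => Fcon K L (fun _ => 0) pr 0 x (sI σ ν) (sI σ ν'))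
      (fun ν ν' => hFk x _ _) (hshiftσ σ x h2)).symm
  · exact mean_num hi _ _ fun x => (hdeg (Ix n) Λ n q c P _).1 d hd

end Pool.Agent.Helper83.CB
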